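import Pool.Agent.Y503.CX.Cortex

set_option autoImplicit false

/-!
# A uniform algebra with spectral permanence whose cortex is the sphere in a three-ball

The algebra of the continuous functions on the closed unit ball of `ℂ × ℝ` which are holomorphic on
the horizontal slices has the spectral permanence property; its Gelfand space is the closed ball
and its cortex is exactly the sphere, which is the Shilov boundary. So the cortex is nowhere dense in
the Gelfand space: almost no multiplicative functional is in it.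
-/

namespace Pool.Agent.Results.MP_6331ea_an.CortexIsSphere

universe u

open WeakDual

/-- `A` sits in `B`, through `j`, as a closed unital subalgebra with an equivalent norm -/
def ClosedEmbedding (A : Type) (B : Type u) [NormedCommRing A] [NormedAlgebra ℂ A]
    [NormedCommRing B] [NormedAlgebra ℂ B] (j : A →ₐ[ℂ] B) : Prop :=
  ∃ c C : ℝ, 0 < c ∧ ∀ x, c * ‖x‖ ≤ ‖j x‖ ∧ ‖j x‖ ≤ C * ‖x‖

/-- the spectral permanence property -/
def SpectralPermanence (A : Type) [NormedCommRing A] [NormedAlgebra ℂ A] : Prop :=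
  ∀ (B : Type u) [NormedCommRing B] [NormedAlgebra ℂ B] [CompleteSpace B] (j : A →ₐ[ℂ] B),
    ClosedEmbedding A B j → ∀ x, spectrum ℂ (j x) = spectrum ℂ x

/-- the character `φ` is in the cortex: it extends to every Banach algebra in which `A` sits as a
closed subalgebra -/
def InCortex (A : Type) [NormedCommRing A] [NormedAlgebra ℂ A] (φ : A →ₐ[ℂ] ℂ) : Prop :=
  ∀ (B : Type u) [NormedCommRing B] [NormedAlgebra ℂ B] [CompleteSpace B] (j : A →ₐ[ℂ] B),
    ClosedEmbedding A B j → ∃ ψ : B →ₐ[ℂ] ℂ, ψ.comp j = φ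

/-- `φ` is, in the strongest sense, not in the cortex: it does not extend to some Banach algebra in
which `A` sits isometrically -/
def NotExtendable (A : Type) [NormedCommRing A] [NormedAlgebra ℂ A] (φ : A →ₐ[ℂ] ℂ) : Prop :=
  ∃ (B : Type) (_ : NormedCommRing B) (_ : NormedAlgebra ℂ B) (_ : CompleteSpace B)
    (j : A →ₐ[ℂ] B), Isometry j ∧ ∀ ψ : B →ₐ[ℂ] ℂ, ψ.comp j ≠ φ

/-- cortex algebras -/
def IsCortexAlgebra (A : Type) [NormedCommRing A] [NormedAlgebra ℂ A] : Prop :=
  ∀ φ : A →ₐ[ℂ] ℂ, InCortex.{0} A φ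

/-- the closed unit ball of `ℂ × ℝ` -/
abbrev Ball : Type := {p : ℂ × ℝ // ‖p.1‖ ^ 2 + p.2 ^ 2 ≤ 1}

/-- the points of the unit sphere -/
def OnSphere (p : Ball) : Prop := ‖p.1.1‖ ^ 2 + p.1.2 ^ 2 = 1

/-- The identification `e` of the ball with the Gelfand space of `A` takes exactly the points of the
sphere to the cortex. -/
def CortexOnSphere (A : Type) [NormedCommRing A] [NormedAlgebra ℂ A] [CompleteSpace A]
    (e : Ball ≃ₜ characterSpace ℂ A) : Prop :=
  (∀ p, OnSphere p → InCortex.{u} A (CharacterSpace.toAlgHom (e p))) ∧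
    ∀ p, ¬ OnSphere p → NotExtendable A (CharacterSpace.toAlgHom (e p))

/-- The norm of every element of `A` is attained on the sphere, and the points of the sphere are
peak points of `A`. -/
def PeaksOnSphere (A : Type) [NormedCommRing A] [NormedAlgebra ℂ A] [CompleteSpace A]
    (e : Ball ≃ₜ characterSpace ℂ A) : Prop :=
  (∀ x : A, ∃ p, OnSphere p ∧ ‖e p x‖ = ‖x‖) ∧
    ∀ p, OnSphere p → ∃ x : A, e p x = 1 ∧ ∀ q, q ≠ p → ‖e q x‖ < 1

/-- There is a unital commutative complex Banach algebra `A` with the spectral permanence property,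
even a uniform algebra, which is not a cortex algebra: its Gelfand space is homeomorphic to the
closed unit ball of `ℂ × ℝ`, and the cortex corresponds exactly to the unit sphere, which is the
Shilov boundary and consists of peak points of `A`. -/
theorem result : ∃ (A : Type) (_ : NormedCommRing A) (_ : NormedAlgebra ℂ A) (_ : CompleteSpace A),
    SpectralPermanence.{u} A ∧ ¬ IsCortexAlgebra A ∧ (∀ x : A, ‖x * x‖ = ‖x‖ ^ 2) ∧
    ∃ e : Ball ≃ₜ characterSpace ℂ A, CortexOnSphere.{u} A e ∧ PeaksOnSphere A e := by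
  have hne : ∀ p : Pool.Agent.W70.BA.X, ¬ OnSphere p →
      NotExtendable Pool.Agent.W70.BA.A (Pool.Agent.Y503.CX.ev p) := by
    intro p hp
    refine ⟨C(Pool.Agent.W70.BA.S, ℂ), inferInstance, inferInstance, inferInstance,
      Pool.Agent.W70.BA.res, Pool.Agent.W70.BA.res_isometry, fun ψ => ?_⟩
    exact Pool.Agent.Y503.CX.not_ext p hp ψ
  refine ⟨Pool.Agent.W70.BA.A, inferInstance, inferInstance, inferInstance, ?_, ?_,
    Pool.Agent.Y503.CX.norm_sq, Pool.Agent.Y503.CX.gelf, ⟨?_, ?_⟩, ?_, ?_⟩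
  · -- spectral permanence
    intro B _ _ _ j ⟨c, C, hc, hj⟩ x
    apply Set.Subset.antisymm (AlgHom.spectrum_apply_subset j x)
    intro z hz
    rw [spectrum.mem_iff] at hz ⊢
    intro hu
    apply absurd hu
    have e : algebraMap ℂ B z - j x = j (algebraMap ℂ Pool.Agent.W70.BA.A z - x) := by
      rw [map_sub, AlgHom.commutes]
    rw [e]
    intro hunit
    obtain ⟨v, hv⟩ := hunit.exists_left_inv
    set f := algebraMap ℂ Pool.Agent.W70.BA.A z - x with hf
    obtain ⟨y, hy1, hy2⟩ := Pool.Agent.W70.BA.tdz f hz (c / (2 * (‖v‖ + 1) * (|C| + 1)))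
      (by positivity)
    have h1 : j y = v * j (f * y) := by
      rw [map_mul, ← mul_assoc, hv, one_mul]
    have h2 : c ≤ ‖j y‖ := by
      have := (hj y).1
      rwa [hy1, mul_one] at this
    have h3 : ‖j (f * y)‖ ≤ |C| * ‖f * y‖ :=
      (hj (f * y)).2.trans (mul_le_mul_of_nonneg_right (le_abs_self C) (norm_nonneg _))
    have h4 : ‖j y‖ ≤ ‖v‖ * (|C| * (c / (2 * (‖v‖ + 1) * (|C| + 1)))) := by
      rw [h1]
      refine (norm_mul_le _ _).trans ?_
      gcongr
      exact h3.trans (mul_le_mul_of_nonneg_left hy2 (abs_nonneg C))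
    have h5 : ‖v‖ * (|C| * (c / (2 * (‖v‖ + 1) * (|C| + 1)))) ≤ c / 2 := by
      have hv0 : 0 ≤ ‖v‖ := norm_nonneg v
      have hC0 : 0 ≤ |C| := abs_nonneg C
      have e1 : ‖v‖ * (|C| * (c / (2 * (‖v‖ + 1) * (|C| + 1)))) =
          (c / 2) * ((‖v‖ / (‖v‖ + 1)) * (|C| / (|C| + 1))) := by
        field_simp
      rw [e1]
      have e2 : ‖v‖ / (‖v‖ + 1) ≤ 1 := by rw [div_le_one (by positivity)]; linarith
      have e3 : |C| / (|C| + 1) ≤ 1 := by rw [div_le_one (by positivity)]; linarith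
      have e4 : (‖v‖ / (‖v‖ + 1)) * (|C| / (|C| + 1)) ≤ 1 :=
        mul_le_one₀ e2 (by positivity) e3
      calc (c / 2) * ((‖v‖ / (‖v‖ + 1)) * (|C| / (|C| + 1))) ≤ (c / 2) * 1 := by gcongr
        _ = c / 2 := mul_one _
    linarith
  · -- the evaluation at the centre is not in the cortex
    have h0 : (‖(0 : ℂ)‖ ^ 2 + (0 : ℝ) ^ 2 : ℝ) ≤ 1 := by simp
    obtain ⟨B, _, _, _, j, hj, hψ⟩ := hne ⟨(0, 0), h0⟩ (by simp [OnSphere])
    intro h
    obtain ⟨ψ, hψ2⟩ := h (Pool.Agent.Y503.CX.ev ⟨(0, 0), h0⟩) B j ⟨1, 1, one_pos, fun x => by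
      have : ‖j x‖ = ‖x‖ := (AddMonoidHomClass.isometry_iff_norm j).1 hj x
      rw [this, one_mul]
      exact ⟨le_rfl, le_rfl⟩⟩
    exact hψ ψ hψ2
  · intro p hp B _ _ _ j ⟨c, C, hc, hj⟩
    exact Pool.Agent.Y503.CX.ext_sphere p hp B j c C hc hj
  · exact hne
  · intro x
    obtain ⟨p, hp, h⟩ := Pool.Agent.Y503.CX.attained x
    exact ⟨p, hp, h⟩
  · intro p hp
    exact ⟨Pool.Agent.W70.BA.pk p.1, Pool.Agent.W70.BA.pk_self p hp, fun q hq =>
      Pool.Agent.W70.BA.pk_lt p.1 hp q fun h => hq (Subtype.ext h)⟩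

end Pool.Agent.Results.MP_6331ea_an.CortexIsSphere
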